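import Pool.Agent.Y757.HW.Stm1

set_option autoImplicit false

/-! The maximal number of zeros in a window (job HW2-MAX, helper768) -/

namespace Pool.Agent.Y768.HW

open MeasureTheory Set Filter Topology Pool.Agent.Y757.HW
open scoped ComplexConjugate

noncomputable section

/-- finiteness of the zeros in a compact set -/
theorem zeta_compact {K : Set ℂ} (hK : IsCompact K) : {s : ℂ | s ∈ K ∧ riemannZeta s = 0}.Finite := by
  have hF : ∀ s : ℂ, s ≠ 1 → AnalyticAt ℂ riemannZeta s := fun s hs => by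
    have : DifferentiableOn ℂ riemannZeta ({1}ᶜ : Set ℂ) := fun z hz =>
      (differentiableAt_riemannZeta hz).differentiableWithinAt
    exact this.analyticAt (isOpen_compl_singleton.mem_nhds hs)
  have h1 : ∀ᶠ s in 𝓝[≠] (1 : ℂ), riemannZeta s ≠ 0 := by
    have h := riemannZeta_residue_one
    have h3 := h.eventually_ne (one_ne_zero : (1 : ℂ) ≠ 0)
    filter_upwards [h3] with s hs h0
    rw [h0, mul_zero] at hs
    exact hs rfl
  by_contra hinf
  have hinf : {s : ℂ | s ∈ K ∧ riemannZeta s = 0}.Infinite := hinf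
  obtain ⟨x, hx, hacc⟩ := hinf.exists_accPt_of_subset_isCompact hK (fun s hs => hs.1)
  have hfreq : ∃ᶠ z in 𝓝[≠] x, riemannZeta z = 0 := by
    rw [accPt_iff_frequently_nhdsNE] at hacc
    exact hacc.mono fun z hz => hz.2
  by_cases hx1 : x = 1
  · subst hx1
    exact hfreq h1
  · have hU : IsPreconnected ({1}ᶜ : Set ℂ) :=
      (isConnected_compl_singleton_of_one_lt_rank (by simp) (1 : ℂ)).isPreconnected
    have hz := AnalyticOnNhd.eqOn_zero_of_preconnected_of_frequently_eq_zero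
      (f := riemannZeta) (U := ({1}ᶜ : Set ℂ)) (fun s hs => hF s hs) hU hx1 hfreq
    exact riemannZeta_ne_zero_of_one_le_re (s := 2) (by simp) (hz (by simp))

lemma Zw_lt {σ t H : ℝ} {ρ : ℂ} (h : ρ ∈ Zw σ t H) : ρ.re < 1 := by
  by_contra hc
  exact riemannZeta_ne_zero_of_one_le_re (not_lt.1 hc) h.1

lemma Zw_fin {σ : ℝ} (t H : ℝ) : (Zw σ t H).Finite := by
  have hcomp : IsCompact (Icc σ 1 ×ℂ Icc (t - H / 2) (t + H / 2)) :=
    isCompact_Icc.reProdIm isCompact_Icc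
  refine (zeta_compact hcomp).subset ?_
  intro s hs
  have h1 := Zw_lt hs
  obtain ⟨a1, a2, a3⟩ := hs
  have := abs_le.1 a3
  exact ⟨⟨⟨a2, h1.le⟩, ⟨by linarith, by linarith⟩⟩, a1⟩

lemma N_eq (σ t H : ℝ) : N σ t H =
    ∑ ρ ∈ (Zw_fin (σ := σ) t H).toFinset, (analyticOrderNatAt riemannZeta ρ : ℝ) := by
  unfold N
  rw [finsum_mem_eq_finite_toFinset_sum _ (Zw_fin t H)]

/-- reflection -/
def tau (ρ : ℂ) : ℂ := 1 - conj ρ

lemma tau_re (ρ : ℂ) : (tau ρ).re = 1 - ρ.re := by simp [tau]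

lemma tau_im (ρ : ℂ) : (tau ρ).im = ρ.im := by simp [tau]

lemma tau_inj : Function.Injective tau := by
  intro a b h
  have h1 := congrArg Complex.re h
  have h2 := congrArg Complex.im h
  rw [tau_re, tau_re] at h1
  rw [tau_im, tau_im] at h2
  exact Complex.ext (by linarith) h2

/-- scaling -/
def phi (ρ : ℂ) : ℂ := ⟨1 / 2 + (ρ.re + 1 / 4) / 3, ρ.im / 3⟩

/-- the inverse of the scaling -/
def psi (z : ℂ) : ℂ := ⟨3 * z.re - 7 / 4, 3 * z.im⟩

lemma psi_phi (ρ : ℂ) : psi (phi ρ) = ρ := by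
  apply Complex.ext
  · simp only [psi, phi]
    ring
  · simp only [psi, phi]
    ring

lemma phi_inj : Function.Injective phi := fun a b h => by
  rw [← psi_phi a, ← psi_phi b, h]

lemma q_cont {x : ℝ} (hx : x < 1) : Continuous (fun v : ℝ => q x v) := by
  unfold q
  refine Continuous.div (by fun_prop) (by fun_prop) fun v => ?_
  have : 0 < (1 - x) ^ 2 := by have := sub_pos.2 hx; positivity
  nlinarith [sq_nonneg v]

/-- the core estimate -/
theorem core (h1 : S_jen) (h2 : S_sym) (C : ℝ) (hC : 1 ≤ C)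
    (hb : ∀ t : ℝ, 1 ≤ t → ∀ S : Finset ℂ, (∀ ρ ∈ S, riemannZeta ρ = 0 ∧ 0 < ρ.re ∧ ρ.re < 1) →
      ∏ ρ ∈ S, q ((ρ.re + 1 / 4) / 3) ((t - ρ.im) / 3) ^ analyticOrderNatAt riemannZeta ρ ≤
        C * t ^ (3 / 2 : ℝ))
    (σ H V t : ℝ) (hσ : 1 / 2 < σ) (hH : 0 < H) (hV : 6 ≤ V) (ht : H / 2 + V + 1 ≤ t) :
    4 * Real.pi * (1 - 6 / V) * N σ t H ≤
      (H + 2 * V) * (Real.log (2 * t) + 2 / 3 * Real.log C) := by
  classical
  set S : Finset ℂ := (Zw_fin (σ := σ) t H).toFinset with hS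
  set m : ℂ → ℕ := analyticOrderNatAt riemannZeta with hm
  have hSm : ∀ ρ ∈ S, riemannZeta ρ = 0 ∧ σ ≤ ρ.re ∧ ρ.re < 1 ∧ |ρ.im - t| ≤ H / 2 := by
    intro ρ hρ
    rw [hS, Set.Finite.mem_toFinset] at hρ
    exact ⟨hρ.1, hρ.2.1, Zw_lt hρ, hρ.2.2⟩
  set S' : Finset ℂ := S.image tau with hS'
  have hsym : ∀ ρ ∈ S, riemannZeta (tau ρ) = 0 ∧ m (tau ρ) = m ρ := by
    intro ρ hρ
    obtain ⟨a1, a2, a3, a4⟩ := hSm ρ hρ
    exact h2 ρ a1 (by linarith) a3
  have hdis : Disjoint S S' := by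
    rw [Finset.disjoint_left]
    intro ρ hρ hρ'
    obtain ⟨ρ', hρ1, rfl⟩ := Finset.mem_image.1 hρ'
    have e1 := (hSm _ hρ).2.1
    have e2 := (hSm _ hρ1).2.1
    rw [tau_re] at e1
    linarith
  set W : Finset ℂ := S ∪ S' with hW
  have hWm : ∀ ρ ∈ W, riemannZeta ρ = 0 ∧ 0 < ρ.re ∧ ρ.re < 1 ∧ |ρ.im - t| ≤ H / 2 := by
    intro ρ hρ
    rcases Finset.mem_union.1 hρ with h | h
    · obtain ⟨a1, a2, a3, a4⟩ := hSm ρ h
      exact ⟨a1, by linarith, a3, a4⟩
    · obtain ⟨ρ', h', rfl⟩ := Finset.mem_image.1 h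
      obtain ⟨a1, a2, a3, a4⟩ := hSm ρ' h'
      refine ⟨(hsym ρ' h').1, ?_, ?_, ?_⟩
      · rw [tau_re]; linarith
      · rw [tau_re]; linarith
      · rw [tau_im]; exact a4
  set Z : Finset ℂ := W.image phi with hZ
  have hjen := h1 Z (fun z => m (psi z)) 1 (t / 3) (H / 3) (V / 3) (by linarith) (by linarith)
    (by
      intro z hz
      obtain ⟨ρ, hρ, rfl⟩ := Finset.mem_image.1 hz
      obtain ⟨a1, a2, a3, a4⟩ := hWm ρ hρ
      refine ⟨?_, ?_, ?_⟩
      · simp only [phi]; linarith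
      · simp only [phi]; linarith
      · simp only [phi]
        have e : ρ.im / 3 - t / 3 = (ρ.im - t) / 3 := by ring
        rw [e, abs_div, abs_of_pos (by norm_num : (0 : ℝ) < 3)]
        linarith)
  -- the sum
  have hsum : ∑ z ∈ Z, ((m (psi z) : ℕ) : ℝ) * (z.re - 1 / 2) = N σ t H / 2 := by
    rw [hZ, Finset.sum_image (fun a _ b _ h => phi_inj h), hW, Finset.sum_union hdis, hS',
      Finset.sum_image (fun a _ b _ h => tau_inj h), N_eq, Finset.sum_div,
      ← Finset.sum_add_distrib]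
    refine Finset.sum_congr rfl fun ρ hρ => ?_
    rw [psi_phi, psi_phi, (hsym ρ hρ).2]
    simp only [phi, tau_re]
    ring
  have hprod : ∀ u : ℝ, ∏ z ∈ Z, q (z.re - 1 / 2) (u - z.im) ^ (1 * m (psi z)) =
      ∏ ρ ∈ W, q ((ρ.re + 1 / 4) / 3) ((3 * u - ρ.im) / 3) ^ m ρ := by
    intro u
    rw [hZ, Finset.prod_image (fun a _ b _ h => phi_inj h)]
    refine Finset.prod_congr rfl fun ρ _ => ?_
    rw [psi_phi, one_mul]
    simp only [phi]
    congr 2 <;> ring
  have hcont : Continuous fun u : ℝ =>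
      ∏ z ∈ Z, q (z.re - 1 / 2) (u - z.im) ^ (1 * m (psi z)) := by
    refine continuous_finsetProd _ fun z hz => ?_
    obtain ⟨ρ, hρ, rfl⟩ := Finset.mem_image.1 hz
    have hx : (phi ρ).re - 1 / 2 < 1 := by
      have := (hWm ρ hρ).2.2.1
      simp only [phi]
      linarith
    exact ((q_cont hx).comp (by fun_prop : Continuous fun u : ℝ => u - (phi ρ).im)).pow _
  have ht0 : 0 < t := by linarith
  have hmean : ∫ u in (t / 3 - (H / 3 / 2 + V / 3))..(t / 3 + (H / 3 / 2 + V / 3)),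
      ∏ z ∈ Z, q (z.re - 1 / 2) (u - z.im) ^ (1 * m (psi z)) ≤
      (H / 3 + 2 * (V / 3)) * (C * (2 * t) ^ (3 / 2 : ℝ)) := by
    have hle : t / 3 - (H / 3 / 2 + V / 3) ≤ t / 3 + (H / 3 / 2 + V / 3) := by linarith
    have e1 := intervalIntegral.integral_mono_on (μ := volume) hle
      (hcont.intervalIntegrable _ _)
      (continuous_const.intervalIntegrable _ _ :
        IntervalIntegrable (fun _ : ℝ => C * (2 * t) ^ (3 / 2 : ℝ)) volume
          (t / 3 - (H / 3 / 2 + V / 3)) (t / 3 + (H / 3 / 2 + V / 3)))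
      (by
        intro u hu
        rw [hprod]
        have e2 : 1 ≤ 3 * u := by linarith [hu.1]
        have e3 : 3 * u ≤ 2 * t := by linarith [hu.2]
        refine (hb (3 * u) e2 W (fun ρ hρ => ⟨(hWm ρ hρ).1, (hWm ρ hρ).2.1,
          (hWm ρ hρ).2.2.1⟩)).trans ?_
        refine mul_le_mul_of_nonneg_left ?_ (by linarith)
        exact Real.rpow_le_rpow (by linarith) e3 (by norm_num))
    refine e1.trans (le_of_eq ?_)
    rw [intervalIntegral.integral_const, smul_eq_mul]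
    ring
  have hH3 : 0 < H / 3 + 2 * (V / 3) := by linarith
  have hfin : Real.exp (4 * Real.pi * ((1 : ℕ) : ℝ) / (H / 3 + 2 * (V / 3)) *
      (1 - 2 / (V / 3)) * (N σ t H / 2)) ≤ C * (2 * t) ^ (3 / 2 : ℝ) := by
    rw [← hsum]
    refine hjen.trans ?_
    refine (mul_le_mul_of_nonneg_left hmean (inv_nonneg.2 hH3.le)).trans (le_of_eq ?_)
    rw [← mul_assoc, inv_mul_cancel₀ hH3.ne', one_mul]
  have hC0 : 0 < C := by linarith
  have h2t : 0 < (2 * t) ^ (3 / 2 : ℝ) := Real.rpow_pos_of_pos (by linarith) _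
  have hlog := (Real.le_log_iff_exp_le (mul_pos hC0 h2t)).2 hfin
  rw [Real.log_mul hC0.ne' h2t.ne', Real.log_rpow (by linarith)] at hlog
  have e5 : 4 * Real.pi * ((1 : ℕ) : ℝ) / (H / 3 + 2 * (V / 3)) *
      (1 - 2 / (V / 3)) * (N σ t H / 2) =
      (4 * Real.pi * (1 - 6 / V) * N σ t H) * (3 / 2) / (H + 2 * V) := by
    have hV0 : V ≠ 0 := by linarith
    have hHV : H + 2 * V ≠ 0 := by linarith
    have hHV' : H / 3 + 2 * (V / 3) ≠ 0 := hH3.ne'
    push_cast
    field_simp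
    ring
  rw [e5, div_le_iff₀ (by linarith)] at hlog
  linarith

theorem t_max (h1 : S_jen) (h2 : S_sym) (h3 : S_bl2) : S_max := by
  obtain ⟨C, hC, hb⟩ := h3
  intro σ e hσ he
  have hpi := Real.pi_pos
  set η : ℝ := min (1 / 2) (4 * Real.pi * e / 17) with hη
  have hη0 : 0 < η := lt_min (by norm_num) (by positivity)
  have hη1 : η ≤ 1 / 2 := min_le_left _ _
  have hη2 : 17 * η ≤ 4 * Real.pi * e := by
    have := min_le_right (1 / 2) (4 * Real.pi * e / 17)
    rw [← hη] at this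
    linarith
  refine ⟨max 1 (6 / η ^ 2), le_max_left _ _, fun H hH => ?_⟩
  have hH1 : 1 ≤ H := (le_max_left _ _).trans hH
  have hH2 : 6 / η ^ 2 ≤ H := (le_max_right _ _).trans hH
  have hH0 : 0 < H := by linarith
  have hη6 : 6 ≤ H * η ^ 2 := by
    rwa [div_le_iff₀ (by positivity)] at hH2
  have hV0 : 0 < η * H := by positivity
  have hV6 : 6 ≤ η * H := by nlinarith
  have h6V : 6 / (η * H) ≤ η := by
    rw [div_le_iff₀ hV0]
    nlinarith
  set K : ℝ := Real.log 2 + 2 / 3 * Real.log C with hK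
  refine ⟨max (H / 2 + η * H + 1) (Real.exp (K / η)), ?_, fun t ht => ?_⟩
  · refine le_trans ?_ (le_max_left _ _)
    nlinarith
  have ht1 : H / 2 + η * H + 1 ≤ t := (le_max_left _ _).trans ht
  have ht2 : Real.exp (K / η) ≤ t := (le_max_right _ _).trans ht
  have ht0 : 0 < t := by linarith
  have htone : 1 < t := by linarith
  have hL : 0 < Real.log t := Real.log_pos htone
  have hKL : K ≤ η * Real.log t := by
    have := (Real.le_log_iff_exp_le ht0).2 ht2
    rw [div_le_iff₀ hη0] at this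
    linarith
  have hcore := core h1 h2 C hC hb σ H (η * H) t hσ hH0 hV6 ht1
  have hN : 0 ≤ N σ t H := by
    rw [N_eq]
    exact Finset.sum_nonneg fun _ _ => Nat.cast_nonneg _
  rw [Real.log_mul (by norm_num) ht0.ne'] at hcore
  set n : ℝ := N σ t H with hn
  set L : ℝ := Real.log t with hLd
  have hc2 : 4 * Real.pi * (1 - η) * n ≤ H * (1 + 2 * η) * ((1 + η) * L) := by
    have e1 : 4 * Real.pi * (1 - η) * n ≤ 4 * Real.pi * (1 - 6 / (η * H)) * n := by
      refine mul_le_mul_of_nonneg_right ?_ hN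
      refine mul_le_mul_of_nonneg_left ?_ (by positivity)
      linarith
    have e2 : (H + 2 * (η * H)) * (Real.log 2 + L + 2 / 3 * Real.log C) ≤
        H * (1 + 2 * η) * ((1 + η) * L) := by
      have e3 : H + 2 * (η * H) = H * (1 + 2 * η) := by ring
      rw [e3]
      refine mul_le_mul_of_nonneg_left ?_ (by positivity)
      linarith
    exact e1.trans (hcore.trans e2)
  have hc3 : 4 * Real.pi * n ≤ 4 * Real.pi * (1 - η) * n * (1 + 2 * η) := by
    have e1 : 1 ≤ (1 - η) * (1 + 2 * η) := by nlinarith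
    have e2 : 0 ≤ 4 * Real.pi * n := by positivity
    calc 4 * Real.pi * n = 4 * Real.pi * n * 1 := by ring
      _ ≤ 4 * Real.pi * n * ((1 - η) * (1 + 2 * η)) := mul_le_mul_of_nonneg_left e1 e2
      _ = _ := by ring
  have hc4 : 4 * Real.pi * (1 - η) * n * (1 + 2 * η) ≤
      H * (1 + 2 * η) * ((1 + η) * L) * (1 + 2 * η) :=
    mul_le_mul_of_nonneg_right hc2 (by linarith)
  have hc5 : H * (1 + 2 * η) * ((1 + η) * L) * (1 + 2 * η) ≤ H * L * (1 + 4 * Real.pi * e) := by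
    have e1 : (1 + 2 * η) * (1 + η) * (1 + 2 * η) ≤ 1 + 17 * η := by nlinarith [sq_nonneg η, mul_pos hη0 hη0]
    have e2 : 0 ≤ H * L := by positivity
    calc H * (1 + 2 * η) * ((1 + η) * L) * (1 + 2 * η)
        = H * L * ((1 + 2 * η) * (1 + η) * (1 + 2 * η)) := by ring
      _ ≤ H * L * (1 + 4 * Real.pi * e) := mul_le_mul_of_nonneg_left (by linarith) e2
  have hc6 : 4 * Real.pi * n ≤ H * L * (1 + 4 * Real.pi * e) := hc3.trans (hc4.trans hc5)
  have e7 : (1 / (4 * Real.pi) + e) * H * L = H * L * (1 + 4 * Real.pi * e) / (4 * Real.pi) := by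
    field_simp
  rw [e7, le_div_iff₀ (by positivity)]
  linarith

end

end Pool.Agent.Y768.HW
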